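import Pool.Agent.X126.LadD

set_option autoImplicit false

namespace Pool.Agent.Results.MP_703902_co.LadderZeroPositive

open Pool.Agent.X126.Lad

/-- There is an infinite connected vertex-transitive graph of bounded degree all of whose vertices are
`0`-positive. -/
theorem result : ∃ (V : Type) (G : SimpleGraph V), Infinite V ∧ Countable V ∧ G.Connected ∧
    (∃ D : ℕ, ∀ v, {w | G.Adj v w}.encard ≤ D) ∧ (∀ a b : V, ∃ e : G ≃g G, e a = b) ∧
    ∀ u, ZeroPositive G u :=
  ⟨ℤ × Bool, ladder, inferInstance, inferInstance, ladder_connected, ⟨3, ladder_degree⟩,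
    ladder_transitive, zeroPositive⟩

end Pool.Agent.Results.MP_703902_co.LadderZeroPositive
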